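import Pool.Agent.Helper9.SK.St

/-!
# Project SK, module CIR: assembly of the circle method
-/

set_option autoImplicit false

noncomputable section

namespace Pool.Agent.Helper12.SK

open Finset ArithmeticFunction MeasureTheory Filter
open Pool.Agent.Helper9.SK
open Pool.Agent.Helper48.BK (ex th Pz Vz lz gs Sx Apx)
open Pool.Agent.Helper60.GP (IsB II Err JJ)

private theorem ev_pow (a : ℝ) (ha : 0 < a) (c : ℝ) : ∀ᶠ X : ℕ in atTop, c ≤ (X : ℝ) ^ a :=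
  ((tendsto_rpow_atTop ha).comp tendsto_natCast_atTop_atTop).eventually_ge_atTop c

private theorem ev_log (a : ℝ) (ha : 0 < a) (c : ℝ) (hc : 0 < c) (m : ℕ) :
    ∀ᶠ X : ℕ in atTop, c * Real.log X ^ m ≤ (X : ℝ) ^ a := by
  have h := isLittleO_log_rpow_rpow_atTop (m : ℝ) ha
  have h1 := h.def (c := 1 / c) (by positivity)
  have h2 := tendsto_natCast_atTop_atTop (R := ℝ) |>.eventually h1
  filter_upwards [h2, eventually_ge_atTop 1] with X hX hX1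
  have hX1' : (1 : ℝ) ≤ X := by exact_mod_cast hX1
  have hl : 0 ≤ Real.log X := Real.log_nonneg hX1'
  rw [Real.rpow_natCast, Real.norm_of_nonneg (by positivity), Real.norm_of_nonneg (by positivity)] at hX
  have := mul_le_mul_of_nonneg_left hX hc.le
  calc c * Real.log X ^ m ≤ c * (1 / c * (X : ℝ) ^ a) := this
    _ = (X : ℝ) ^ a := by field_simp

private theorem ev_L (c : ℝ) : ∀ᶠ X : ℕ in atTop, c ≤ Real.log X :=
  (Real.tendsto_log_atTop.comp tendsto_natCast_atTop_atTop).eventually_ge_atTop c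

private theorem supp_wt {ω : ℝ → ℝ} (hω : IsB ω) {x : ℝ} (hx : 0 < x) {n : ℕ} (h : wt ω x n ≠ 0) :
    x ≤ n ∧ (n : ℝ) ≤ Real.exp 1 * x := by
  have h1 : ω (Real.log (n / x)) ≠ 0 := fun h0 => h (by simp [wt, h0])
  have h2 : Real.log (n / x) ∈ Set.Icc (0 : ℝ) 1 := by
    by_contra h3
    exact h1 (hω.supp _ h3)
  have hn : (n : ℕ) ≠ 0 := by
    rintro rfl
    exact h (by simp [wt])
  have hn0 : (0 : ℝ) < n := by exact_mod_cast Nat.pos_of_ne_zero hn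
  have hq : 0 < (n : ℝ) / x := div_pos hn0 hx
  constructor
  · have := (Real.log_nonneg_iff hq).1 h2.1
    rwa [le_div_iff₀ hx, one_mul] at this
  · have := (Real.log_le_iff_le_exp hq).1 h2.2
    rwa [div_le_iff₀ hx] at this

private theorem exp1_le : Real.exp 1 ≤ 2.7182818286 := Real.exp_one_lt_d9.le

private theorem bd_wt {ω : ℝ → ℝ} (hω : IsB ω) {x X : ℝ} (hx : 0 < x) (hxX : 3 * x ≤ X) (hX : 1 ≤ X) (n : ℕ) :
    |wt ω x n| ≤ Real.log X := by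
  have hL : 0 ≤ Real.log X := Real.log_nonneg hX
  by_cases h : wt ω x n = 0
  · rw [h, abs_zero]
    exact hL
  · obtain ⟨h1, h2⟩ := supp_wt hω hx h
    have hn0 : (0 : ℝ) < n := hx.trans_le h1
    have hnX : (n : ℝ) ≤ X := h2.trans (by nlinarith [exp1_le])
    have h3 : Λ n ≤ Real.log n := vonMangoldt_le_log
    have h4 : Real.log n ≤ Real.log X := Real.log_le_log hn0 hnX
    have h5 : 0 ≤ Λ n := vonMangoldt_nonneg
    have h6 := hω.nonneg (Real.log (n / x))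
    have h7 := hω.le_half (Real.log (n / x))
    rw [wt, abs_of_nonneg (mul_nonneg h5 h6)]
    calc Λ n * ω (Real.log (n / x)) ≤ Real.log X * 1 :=
          mul_le_mul (h3.trans h4) (by linarith) h6 hL
      _ = Real.log X := mul_one _

private theorem ff_le {a : ℕ} (ha : 1 ≤ a) : (ff a : ℝ) ≤ 3 * (a : ℝ) ^ 2 := by
  have h1 : (1 : ℝ) ≤ a := by exact_mod_cast ha
  simp only [ff]
  push_cast
  nlinarith

private theorem cont_eS (U M : ℕ) (a c : ℕ → ℝ) : Continuous (eS U M a c) := by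
  unfold eS ex
  fun_prop

private theorem norm_ex (t : ℝ) : ‖ex t‖ = 1 := by
  unfold ex
  rw [Complex.norm_exp]
  simp

private theorem norm_eS_le (U M : ℕ) (a c : ℕ → ℝ) (G α : ℝ) (hG : 0 ≤ G) (ha : ∀ n, |a n| ≤ G) (hc : ∀ n, |c n| ≤ G) :
    ‖eS U M a c α‖ ≤ G ^ 2 * (U * M) := by
  unfold eS
  refine (norm_sum_le _ _).trans ?_
  calc ∑ u ∈ Icc 1 U, ‖∑ v ∈ Icc 1 M, ((a u * c v : ℝ) : ℂ) * ex (((ff u * ff v : ℕ) : ℝ) * α)‖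
      ≤ ∑ u ∈ Icc 1 U, ∑ v ∈ Icc 1 M, G ^ 2 := by
        refine Finset.sum_le_sum fun u _ => (norm_sum_le _ _).trans (Finset.sum_le_sum fun v _ => ?_)
        rw [norm_mul, norm_ex, mul_one, Complex.norm_real, Real.norm_eq_abs, abs_mul, sq]
        exact mul_le_mul (ha u) (hc v) (abs_nonneg _) hG
    _ = G ^ 2 * (U * M) := by
        simp [Finset.sum_const, Nat.card_Icc]
        ring

/-- the sum over pairs is the exponential sum -/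
private theorem pair_sum (ω : ℝ → ℝ) (x y α : ℝ) :
    ∑ i ∈ II x ×ˢ II y, ((wt ω x i.1 * wt ω y i.2 : ℝ) : ℂ) * ex (((ff i.1 * ff i.2 : ℕ) : ℝ) * α) =
      eS ⌊3 * x⌋₊ ⌊3 * y⌋₊ (wt ω x) (wt ω y) α := by
  rw [Finset.sum_product]
  rfl

/-- the difference of the two weighted sums -/
private theorem diff_eq {ω : ℝ → ℝ} (hω : IsB ω) {x y : ℝ} {X z v : ℕ} (hx : 0 < x) (hy : 0 < y)
    (hxy : 9 * (Real.exp 1) ^ 4 * (x * y) ^ 2 ≤ 4 * X) (h1 : 2 * X < v) (h2 : v ≤ 4 * X) :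
    rS ω x y th v - rS ω x y (lz z) v =
      ∑ i ∈ II x ×ˢ II y, (wt ω x i.1 * wt ω y i.2) * Dd X z (v + ff i.1 * ff i.2) := by
  unfold rS
  rw [Finset.sum_product, ← Finset.sum_sub_distrib]
  refine Finset.sum_congr rfl fun a ha => ?_
  rw [← Finset.sum_sub_distrib]
  refine Finset.sum_congr rfl fun b hb => ?_
  simp only
  rw [← mul_sub]
  by_cases hw : wt ω x a * wt ω y b = 0
  · rw [hw, zero_mul, zero_mul]
  · congr 1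
    obtain ⟨ha0, hb0⟩ := mul_ne_zero_iff.1 hw
    obtain ⟨ha1, ha2⟩ := supp_wt hω hx ha0
    obtain ⟨hb1, hb2⟩ := supp_wt hω hy hb0
    have haN : 1 ≤ a := (Finset.mem_Icc.1 ha).1
    have hbN : 1 ≤ b := (Finset.mem_Icc.1 hb).1
    have hfa := ff_le haN
    have hfb := ff_le hbN
    have ha0' : (0 : ℝ) ≤ a := Nat.cast_nonneg a
    have hb0' : (0 : ℝ) ≤ b := Nat.cast_nonneg b
    have hab : (a : ℝ) * b ≤ Real.exp 1 ^ 2 * (x * y) := by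
      calc (a : ℝ) * b ≤ (Real.exp 1 * x) * (Real.exp 1 * y) :=
            mul_le_mul ha2 hb2 hb0' (by positivity)
        _ = Real.exp 1 ^ 2 * (x * y) := by ring
    have hprod : ((ff a * ff b : ℕ) : ℝ) ≤ 4 * X := by
      push_cast
      calc (ff a : ℝ) * ff b ≤ (3 * (a : ℝ) ^ 2) * (3 * (b : ℝ) ^ 2) :=
            mul_le_mul hfa hfb (Nat.cast_nonneg _) (by positivity)
        _ = 9 * ((a : ℝ) * b) ^ 2 := by ring
        _ ≤ 9 * (Real.exp 1 ^ 2 * (x * y)) ^ 2 := by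
            have := pow_le_pow_left₀ (by positivity : 0 ≤ (a : ℝ) * b) hab 2
            linarith
        _ = 9 * (Real.exp 1) ^ 4 * (x * y) ^ 2 := by ring
        _ ≤ 4 * X := hxy
    have hprod' : ff a * ff b ≤ 4 * X := by exact_mod_cast hprod
    have hc : 2 * X < v + ff a * ff b ∧ v + ff a * ff b ≤ 8 * X := by omega
    rw [Dd, if_pos hc]

/-- the numerical end of the argument -/
private theorem num_end {C L x y X U M t : ℝ} {A : ℕ} (hC : 0 < C) (hL2 : 486 * C ≤ L) (hL3 : 13 ≤ L) (hX : 0 ≤ X)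
    (hU0 : 0 ≤ U) (hM0 : 0 ≤ M) (hx : 0 ≤ x) (hU : U ≤ 3 * x) (hM : M ≤ 3 * y) (ht : t ≤ 3 / L ^ (A + 14)) :
    (L ^ 2 * (U * M)) ^ 2 * X * ((C * L ^ 2 * t) * L ^ 3 + 1 / L ^ (A + 6)) ≤ X * (x * y) ^ 2 / L ^ A := by
  have hL : 0 < L := by linarith
  have hUM : (U * M) ^ 2 ≤ 81 * (x * y) ^ 2 := by
    have h1 : U * M ≤ (3 * x) * (3 * y) := mul_le_mul hU hM hM0 (by linarith)
    calc (U * M) ^ 2 ≤ ((3 * x) * (3 * y)) ^ 2 := pow_le_pow_left₀ (mul_nonneg hU0 hM0) h1 2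
      _ = 81 * (x * y) ^ 2 := by ring
  have h2 : (C * L ^ 2 * t) * L ^ 3 ≤ 3 * C * L ^ 5 / L ^ (A + 14) := by
    calc (C * L ^ 2 * t) * L ^ 3 = C * L ^ 5 * t := by ring
      _ ≤ C * L ^ 5 * (3 / L ^ (A + 14)) := mul_le_mul_of_nonneg_left ht (by positivity)
      _ = 3 * C * L ^ 5 / L ^ (A + 14) := by ring
  have h3 : L ^ 4 * ((C * L ^ 2 * t) * L ^ 3 + 1 / L ^ (A + 6)) ≤ (1 / 81) * (1 / L ^ A) := by
    calc L ^ 4 * ((C * L ^ 2 * t) * L ^ 3 + 1 / L ^ (A + 6))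
        ≤ L ^ 4 * (3 * C * L ^ 5 / L ^ (A + 14) + 1 / L ^ (A + 6)) := by
          refine mul_le_mul_of_nonneg_left ?_ (by positivity)
          linarith
      _ = (3 * C / L ^ 5 + 1 / L ^ 2) * (1 / L ^ A) := by
          rw [pow_add, pow_add]
          field_simp
      _ ≤ (1 / 81) * (1 / L ^ A) := by
          refine mul_le_mul_of_nonneg_right ?_ (by positivity)
          have h4 : 3 * C / L ^ 5 ≤ 1 / 162 := by
            rw [div_le_div_iff₀ (by positivity) (by norm_num)]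
            have : L ≤ L ^ 5 := by
              calc L = L ^ 1 := (pow_one L).symm
                _ ≤ L ^ 5 := pow_le_pow_right₀ (by linarith) (by norm_num)
            nlinarith
          have h5 : 1 / L ^ 2 ≤ 1 / 169 := by
            refine one_div_le_one_div_of_le (by norm_num) ?_
            nlinarith
          linarith
  have h4 : 0 ≤ L ^ 4 * ((C * L ^ 2 * t) * L ^ 3 + 1 / L ^ (A + 6)) ∨
      L ^ 4 * ((C * L ^ 2 * t) * L ^ 3 + 1 / L ^ (A + 6)) < 0 := le_or_gt _ _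
  calc (L ^ 2 * (U * M)) ^ 2 * X * ((C * L ^ 2 * t) * L ^ 3 + 1 / L ^ (A + 6))
      = (U * M) ^ 2 * X * (L ^ 4 * ((C * L ^ 2 * t) * L ^ 3 + 1 / L ^ (A + 6))) := by ring
    _ ≤ (U * M) ^ 2 * X * ((1 / 81) * (1 / L ^ A)) :=
        mul_le_mul_of_nonneg_left h3 (by positivity)
    _ ≤ (81 * (x * y) ^ 2) * X * ((1 / 81) * (1 / L ^ A)) := by
        refine mul_le_mul_of_nonneg_right (mul_le_mul_of_nonneg_right hUM hX) (by positivity)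
    _ = X * (x * y) ^ 2 / L ^ A := by ring

private theorem core (hBes : StBes) {ω : ℝ → ℝ} (hω : IsB ω) {x y C : ℝ} {X z Q h A : ℕ} (hC : 0 < C)
    (hx3 : 3 ≤ x) (hxy : x ≤ y) (hy : 3 * y ≤ X) (hpr : 9 * (Real.exp 1) ^ 4 * (x * y) ^ 2 ≤ 4 * X)
    (hL2 : 486 * C ≤ Real.log X) (hL3 : 13 ≤ Real.log X) (hxL : Real.log X ^ (A + 14) ≤ x)
    (hQ : Real.log X ^ (8 * (A + 14)) ≤ 2 * Q) (hQ1 : 1 ≤ Q) (hQM : Q ≤ ⌊3 * y⌋₊)
    (hη : (Q : ℝ) / ((⌊3 * x⌋₊ : ℝ) * ⌊3 * y⌋₊) ^ 2 ≤ 1 / (2 * h))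
    (hD : ∀ (U M Q : ℕ) (α G η : ℝ) (a c : ℕ → ℝ), 3 ≤ U → U ≤ M →
      1 ≤ Q → Q ≤ M → (∀ n, |a n| ≤ G) → (∀ n, |c n| ≤ G) → (Q : ℝ) / ((U : ℝ) * M) ^ 2 ≤ η →
      ‖eS U M a c α‖ ^ 2 ≤ C * G ^ 4 * ((U : ℝ) * M) ^ 2 * Real.log M ^ 2 *
        (1 / (U : ℝ) + (1 / (Q : ℝ)) ^ (1 / 8 : ℝ)) ∨
      ∃ q ∈ Icc 1 Q, ∃ b : ℤ, |α - b / q| ≤ η)
    (hM : ∀ (S : ℝ → ℂ) (W δ : ℝ), Continuous S → 0 ≤ W → 0 ≤ δ → (∀ α, ‖S α‖ ≤ W) →
      (∀ α, ‖S α‖ ≤ δ * W ∨ ∃ q ∈ Icc 1 Q, ∃ a : ℤ, |α - a / q| ≤ 1 / (2 * h)) →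
      ∫ α in (0 : ℝ)..1, ‖Sx (Dd X z) (8 * X) α‖ ^ 2 * ‖S α‖ ^ 2 ≤
        W ^ 2 * X * (δ ^ 2 * Real.log X ^ 3 + 1 / Real.log X ^ (A + 6))) :
    ∑ v ∈ Ioc (2 * X) (4 * X), (rS ω x y th v - rS ω x y (lz z) v) ^ 2 ≤ X * (x * y) ^ 2 / Real.log X ^ A := by
  have hx0 : 0 < x := by linarith
  have hy0 : 0 < y := by linarith
  have hX1 : (1 : ℝ) ≤ X := by linarith
  set L := Real.log X with hLdef
  have hL0 : 0 < L := by linarith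
  have hU0 : x ≤ (⌊3 * x⌋₊ : ℝ) := by
    have := Nat.lt_floor_add_one (3 * x)
    linarith
  have hU1 : (⌊3 * x⌋₊ : ℝ) ≤ 3 * x := Nat.floor_le (by linarith)
  have hM1 : (⌊3 * y⌋₊ : ℝ) ≤ 3 * y := Nat.floor_le (by linarith)
  have hU3 : 3 ≤ ⌊3 * x⌋₊ := Nat.le_floor (by push_cast; linarith)
  have hUM : ⌊3 * x⌋₊ ≤ ⌊3 * y⌋₊ := Nat.floor_le_floor (by linarith)
  have hQ0 : (0 : ℝ) < Q := by exact_mod_cast hQ1
  set t : ℝ := 1 / (⌊3 * x⌋₊ : ℝ) + (1 / (Q : ℝ)) ^ (1 / 8 : ℝ) with ht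
  have ht0 : 0 ≤ t := by positivity
  have ht3 : t ≤ 3 / L ^ (A + 14) := by
    have h1 : 1 / (⌊3 * x⌋₊ : ℝ) ≤ 1 / L ^ (A + 14) := one_div_le_one_div_of_le (by positivity) (hxL.trans hU0)
    have h2 : (1 / (Q : ℝ)) ^ (1 / 8 : ℝ) ≤ 2 / L ^ (A + 14) := by
      have h3 : 1 / (Q : ℝ) ≤ (2 / L ^ (A + 14)) ^ (8 : ℕ) := by
        rw [div_pow, ← pow_mul, div_le_div_iff₀ hQ0 (by positivity), one_mul]
        calc L ^ ((A + 14) * 8) = L ^ (8 * (A + 14)) := by rw [mul_comm]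
          _ ≤ 2 * Q := hQ
          _ ≤ 2 ^ 8 * Q := by nlinarith
      calc (1 / (Q : ℝ)) ^ (1 / 8 : ℝ) ≤ ((2 / L ^ (A + 14)) ^ (8 : ℕ)) ^ (1 / 8 : ℝ) :=
            Real.rpow_le_rpow (by positivity) h3 (by norm_num)
        _ = 2 / L ^ (A + 14) := by
            rw [← Real.rpow_natCast, ← Real.rpow_mul (by positivity)]
            norm_num
    have h3 : (3 : ℝ) / L ^ (A + 14) = 1 / L ^ (A + 14) + 2 / L ^ (A + 14) := by ring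
    rw [h3]
    exact add_le_add h1 h2
  have hlogM : Real.log (⌊3 * y⌋₊ : ℝ) ^ 2 ≤ L ^ 2 := by
    have h1 : (1 : ℝ) ≤ ⌊3 * y⌋₊ := by exact_mod_cast le_trans hQ1 hQM
    refine pow_le_pow_left₀ (Real.log_nonneg h1) ?_ 2
    exact Real.log_le_log (by linarith) (hM1.trans hy)
  have hax := bd_wt hω hx0 (by linarith : 3 * x ≤ (X : ℝ)) hX1
  have hcy := bd_wt hω hy0 hy hX1
  have hδ0 : 0 ≤ C * L ^ 2 * t := by positivity
  have hW0 : (0 : ℝ) ≤ L ^ 2 * ((⌊3 * x⌋₊ : ℝ) * ⌊3 * y⌋₊) := by positivity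
  have hint := hM (eS ⌊3 * x⌋₊ ⌊3 * y⌋₊ (wt ω x) (wt ω y)) (L ^ 2 * ((⌊3 * x⌋₊ : ℝ) * ⌊3 * y⌋₊)) (Real.sqrt (C * L ^ 2 * t))
    (cont_eS _ _ _ _) hW0 (Real.sqrt_nonneg _) (fun α => norm_eS_le _ _ _ _ _ _ hL0.le hax hcy) (fun α => by
      rcases hD ⌊3 * x⌋₊ ⌊3 * y⌋₊ Q α L (1 / (2 * h)) (wt ω x) (wt ω y) hU3 hUM hQ1 hQM hax hcy hη with h1 | h1
      · left
        refine (pow_le_pow_iff_left₀ (norm_nonneg _) (by positivity) two_ne_zero).1 ?_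
        rw [mul_pow, Real.sq_sqrt hδ0]
        refine h1.trans ?_
        calc C * L ^ 4 * ((⌊3 * x⌋₊ : ℝ) * ⌊3 * y⌋₊) ^ 2 * Real.log (⌊3 * y⌋₊ : ℝ) ^ 2 * t
            = (C * L ^ 4 * ((⌊3 * x⌋₊ : ℝ) * ⌊3 * y⌋₊) ^ 2 * t) * Real.log (⌊3 * y⌋₊ : ℝ) ^ 2 := by ring
          _ ≤ (C * L ^ 4 * ((⌊3 * x⌋₊ : ℝ) * ⌊3 * y⌋₊) ^ 2 * t) * L ^ 2 :=
              mul_le_mul_of_nonneg_left hlogM (by positivity)
          _ = C * L ^ 2 * t * (L ^ 2 * ((⌊3 * x⌋₊ : ℝ) * ⌊3 * y⌋₊)) ^ 2 := by ring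
      · right
        exact h1)
  rw [Real.sq_sqrt hδ0] at hint
  have hbes := hBes (8 * X) (4 * X) (Dd X z) (II x ×ˢ II y) (fun i => wt ω x i.1 * wt ω y i.2)
    (fun i => ff i.1 * ff i.2) (fun m hm => by
      rw [Dd, if_neg]
      omega)
  have hfun : ∀ α : ℝ, ∑ i ∈ II x ×ˢ II y, ((wt ω x i.1 * wt ω y i.2 : ℝ) : ℂ) * ex (((ff i.1 * ff i.2 : ℕ) : ℝ) * α) =
      eS ⌊3 * x⌋₊ ⌊3 * y⌋₊ (wt ω x) (wt ω y) α := pair_sum ω x y
  simp only [hfun] at hbes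
  calc ∑ v ∈ Ioc (2 * X) (4 * X), (rS ω x y th v - rS ω x y (lz z) v) ^ 2
      = ∑ v ∈ Ioc (2 * X) (4 * X), (∑ i ∈ II x ×ˢ II y, (wt ω x i.1 * wt ω y i.2) * Dd X z (v + ff i.1 * ff i.2)) ^ 2 := by
        refine Finset.sum_congr rfl fun v hv => ?_
        rw [Finset.mem_Ioc] at hv
        rw [diff_eq hω hx0 hy0 hpr hv.1 hv.2]
    _ ≤ ∑ v ∈ Icc 1 (4 * X), (∑ i ∈ II x ×ˢ II y, (wt ω x i.1 * wt ω y i.2) * Dd X z (v + ff i.1 * ff i.2)) ^ 2 := by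
        refine Finset.sum_le_sum_of_subset_of_nonneg ?_ (fun _ _ _ => sq_nonneg _)
        intro v hv
        rw [Finset.mem_Ioc] at hv
        rw [Finset.mem_Icc]
        omega
    _ ≤ _ := hbes
    _ ≤ _ := hint
    _ ≤ _ := num_end hC hL2 hL3 (by linarith) (by positivity) (by positivity) hx0.le hU1 hM1 ht3

theorem hCIR (hBes : StBes) (hMaj : StMaj) (hDic : StDic) : StCir := by
  intro ω hω κ hκ1 hκ2 A
  obtain ⟨C, hC, hD⟩ := hDic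
  obtain ⟨κ', hκ'1, hκ'2, hκ'3⟩ : ∃ κ' : ℝ, 2 / 5 < κ' ∧ κ' < 1 / 2 ∧ κ' < κ :=
    ⟨min ((κ + 2 / 5) / 2) (9 / 20), lt_min (by linarith) (by norm_num), (min_le_right _ _).trans_lt (by norm_num),
      (min_le_left _ _).trans_lt (by linarith)⟩
  obtain ⟨X₁, hM⟩ := hMaj κ' hκ'1 hκ'2 (A + 6) (8 * (A + 14) + 1)
  have hev : ∀ᶠ X : ℕ in atTop, X₁ ≤ X ∧ 1 ≤ X ∧ 3 ≤ (X : ℝ) ^ (κ / 10) ∧ 1 * Real.log X ^ (A + 14) ≤ (X : ℝ) ^ (κ / 10) ∧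
      10 ≤ (X : ℝ) ^ (3 * κ / 10) ∧ 5 * Real.log X ^ (8 * (A + 14)) ≤ (X : ℝ) ^ (2 * κ / 5) ∧
      200 * Real.log X ^ (8 * (A + 14)) ≤ (X : ℝ) ^ (κ - κ') ∧ 5 / 4 ≤ (X : ℝ) ^ (1 - κ) ∧
      13 ≤ Real.log X ∧ 486 * C ≤ Real.log X := by
    filter_upwards [eventually_ge_atTop X₁, eventually_ge_atTop 1, ev_pow (κ / 10) (by linarith) 3,
      ev_log (κ / 10) (by linarith) 1 one_pos (A + 14), ev_pow (3 * κ / 10) (by linarith) 10,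
      ev_log (2 * κ / 5) (by linarith) 5 (by norm_num) (8 * (A + 14)),
      ev_log (κ - κ') (by linarith) 200 (by norm_num) (8 * (A + 14)), ev_pow (1 - κ) (by linarith) (5 / 4),
      ev_L 13, ev_L (486 * C)] with X a1 a2 a3 a4 a5 a6 a7 a8 a9 a10
    exact ⟨a1, a2, a3, a4, a5, a6, a7, a8, a9, a10⟩
  obtain ⟨X₀, hX₀⟩ := eventually_atTop.1 hev
  refine ⟨8 * (A + 14), X₀, fun X z hX hz1 hz2 => ?_⟩
  obtain ⟨a1, a2, a3, a4, a5, a6, a7, a8, a9, a10⟩ := hX₀ X hX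
  have hX1 : (1 : ℝ) ≤ X := by exact_mod_cast a2
  have hX0 : (0 : ℝ) < X := by linarith
  have hxx : xx κ X = (X : ℝ) ^ (κ / 10) := rfl
  have hyy : yy κ X = (X : ℝ) ^ (2 * κ / 5) / 10 := rfl
  have hxy : xx κ X ≤ yy κ X := by
    rw [hxx, hyy]
    have h1 : (X : ℝ) ^ (2 * κ / 5) = (X : ℝ) ^ (κ / 10) * (X : ℝ) ^ (3 * κ / 10) := by
      rw [← Real.rpow_add hX0]
      congr 1
      ring
    rw [h1]
    nlinarith [Real.rpow_nonneg hX0.le (κ / 10)]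
  have hprod : (xx κ X * yy κ X) ^ 2 = (X : ℝ) ^ κ / 100 := by
    rw [hxx, hyy]
    have h1 : (X : ℝ) ^ κ = ((X : ℝ) ^ (κ / 10) * (X : ℝ) ^ (2 * κ / 5)) ^ (2 : ℕ) := by
      rw [← Real.rpow_add hX0, ← Real.rpow_natCast, ← Real.rpow_mul hX0.le]
      congr 1
      push_cast
      ring
    rw [h1]
    ring
  have hy : 3 * yy κ X ≤ X := by
    rw [hyy]
    have h1 : (X : ℝ) ^ (2 * κ / 5) ≤ (X : ℝ) ^ (1 : ℝ) := Real.rpow_le_rpow_of_exponent_le hX1 (by linarith)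
    rw [Real.rpow_one] at h1
    linarith
  have hpr : 9 * (Real.exp 1) ^ 4 * (xx κ X * yy κ X) ^ 2 ≤ 4 * X := by
    rw [hprod]
    have h1 : (X : ℝ) = (X : ℝ) ^ κ * (X : ℝ) ^ (1 - κ) := by
      rw [← Real.rpow_add hX0]
      simp
    have h2 : 0 ≤ (X : ℝ) ^ κ := Real.rpow_nonneg hX0.le _
    have h3 : (Real.exp 1) ^ 4 ≤ 55 := by
      calc (Real.exp 1) ^ 4 ≤ (2.7182818286 : ℝ) ^ 4 := pow_le_pow_left₀ (Real.exp_pos 1).le exp1_le 4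
        _ ≤ 55 := by norm_num
    have h4 : (X : ℝ) ^ κ * (5 / 4) ≤ X := by
      calc (X : ℝ) ^ κ * (5 / 4) ≤ (X : ℝ) ^ κ * (X : ℝ) ^ (1 - κ) := mul_le_mul_of_nonneg_left a8 h2
        _ = X := h1.symm
    calc 9 * (Real.exp 1) ^ 4 * ((X : ℝ) ^ κ / 100) = (Real.exp 1) ^ 4 * (9 / 100 * (X : ℝ) ^ κ) := by ring
      _ ≤ 55 * (9 / 100 * (X : ℝ) ^ κ) := mul_le_mul_of_nonneg_right h3 (by positivity)
      _ ≤ 4 * X := by linarith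
  set L := Real.log X with hL
  have hLB : 13 ≤ L ^ (8 * (A + 14)) := by
    calc (13 : ℝ) ≤ L := a9
      _ = L ^ 1 := (pow_one L).symm
      _ ≤ L ^ (8 * (A + 14)) := pow_le_pow_right₀ (by linarith) (by omega)
  set Q := ⌊L ^ (8 * (A + 14))⌋₊ with hQdef
  have hQle : (Q : ℝ) ≤ L ^ (8 * (A + 14)) := Nat.floor_le (by linarith)
  have hQgt : L ^ (8 * (A + 14)) < Q + 1 := Nat.lt_floor_add_one _
  have hQ1 : 1 ≤ Q := Nat.le_floor (by push_cast; linarith)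
  have hQz : Q ≤ z := by
    have : (Q : ℝ) ≤ z := hQle.trans hz1
    exact_mod_cast this
  have hz : 2 ≤ z := by
    have : (2 : ℝ) ≤ z := by linarith
    exact_mod_cast this
  have hx3 : 3 ≤ xx κ X := a3
  have hx0 : 0 < xx κ X := by linarith
  have hy0 : 0 < yy κ X := by linarith
  have hQM : Q ≤ ⌊3 * yy κ X⌋₊ := by
    refine Nat.floor_le_floor ?_
    have h1 : (X : ℝ) ^ (2 * κ / 5) = 10 * yy κ X := by
      rw [hyy]
      ring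
    rw [h1] at a6
    linarith
  have hU0 : xx κ X ≤ (⌊3 * xx κ X⌋₊ : ℝ) := by
    have := Nat.lt_floor_add_one (3 * xx κ X)
    linarith
  have hM0 : yy κ X ≤ (⌊3 * yy κ X⌋₊ : ℝ) := by
    have := Nat.lt_floor_add_one (3 * yy κ X)
    linarith
  have hh0 : 1 ≤ ⌊(X : ℝ) ^ κ'⌋₊ := by
    refine Nat.le_floor ?_
    push_cast
    exact Real.one_le_rpow hX1 (by linarith)
  have hh1 : (⌊(X : ℝ) ^ κ'⌋₊ : ℝ) ≤ (X : ℝ) ^ κ' := Nat.floor_le (Real.rpow_nonneg hX0.le _)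
  have hh0' : (0 : ℝ) < ⌊(X : ℝ) ^ κ'⌋₊ := by exact_mod_cast hh0
  have hη : (Q : ℝ) / ((⌊3 * xx κ X⌋₊ : ℝ) * ⌊3 * yy κ X⌋₊) ^ 2 ≤ 1 / (2 * ⌊(X : ℝ) ^ κ'⌋₊) := by
    have h0 : xx κ X * yy κ X ≤ (⌊3 * xx κ X⌋₊ : ℝ) * ⌊3 * yy κ X⌋₊ :=
      mul_le_mul hU0 hM0 hy0.le (by positivity)
    have h1 : (xx κ X * yy κ X) ^ 2 ≤ ((⌊3 * xx κ X⌋₊ : ℝ) * ⌊3 * yy κ X⌋₊) ^ 2 :=
      pow_le_pow_left₀ (by positivity) h0 2
    have h2 : 0 < (xx κ X * yy κ X) ^ 2 := by positivity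
    rw [div_le_div_iff₀ (h2.trans_le h1) (by positivity), one_mul]
    refine le_trans ?_ h1
    rw [hprod]
    have h3 : (X : ℝ) ^ κ = (X : ℝ) ^ κ' * (X : ℝ) ^ (κ - κ') := by
      rw [← Real.rpow_add hX0]
      congr 1
      ring
    have h4 : 0 ≤ (X : ℝ) ^ κ' := Real.rpow_nonneg hX0.le _
    calc (Q : ℝ) * (2 * ⌊(X : ℝ) ^ κ'⌋₊) ≤ L ^ (8 * (A + 14)) * (2 * (X : ℝ) ^ κ') :=
          mul_le_mul hQle (by linarith) (by positivity) (by positivity)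
      _ = (X : ℝ) ^ κ' * (200 * L ^ (8 * (A + 14))) / 100 := by ring
      _ ≤ (X : ℝ) ^ κ' * (X : ℝ) ^ (κ - κ') / 100 := by
          have := mul_le_mul_of_nonneg_left a7 h4
          linarith
      _ = (X : ℝ) ^ κ / 100 := by rw [h3]
  rw [one_mul] at a4
  exact core hBes hω hC hx3 hxy hy hpr a10 a9 a4 (by linarith) hQ1 hQM hη hD
    (hM X z Q ⌊(X : ℝ) ^ κ'⌋₊ a1 hz hz2 hQz rfl)

end Pool.Agent.Helper12.SK
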